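import Pool.Agent.helper70.NZ.SpecB

/-!
MP_baa4d7_al, THEOREM NZ, row YUL: a unit class goes up from a normal subgroup of index prime to p (class of THEOREM ZD)
-/

set_option autoImplicit false

namespace Pool.Agent.ND.NY.E

open Pool.Agent.helper58.DC Pool.Agent.DI Pool.Agent.GR Pool.Agent.OB Pool.Agent.DR Pool.Agent.FI Pool.Agent.FI3 Pool.Agent.FI4 Pool.Agent.FI4I Pool.Agent.LE Pool.Agent.L5 Pool.Agent.NAB Pool.Agent.NE
open Pool.Agent.ZB (Pm Om KZ EQ BQ lQ MZc BDK)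

/-- the order of a subgroup which is conjugate into another one -/
theorem YUL_card {G : Type} [Group G] [Finite G] (D D' : Subgroup G) (l : G) (h : ∀ r ∈ D, l⁻¹ * r * l ∈ D') : Nat.card D ≤ Nat.card D' := by
  refine Nat.card_le_card_of_injective (fun r : D => (⟨l⁻¹ * r.1 * l, h r.1 r.2⟩ : D')) ?_
  intro a b hab
  have h1 : l⁻¹ * a.1 * l = l⁻¹ * b.1 * l := congrArg Subtype.val hab
  have h2 : a.1 = b.1 := mul_left_cancel (mul_right_cancel h1)
  exact Subtype.ext h2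

/-- **Row YUL** -/
theorem YUL (hYUL : Pool.Agent.NE.YUL_stmt) (hYDF : Pool.Agent.NE.YDF_stmt) (hYIX : Pool.Agent.NE.YIX_stmt) (hDEX : DEX_stmt) (hDGL : DGL_stmt) (hSYL : SYL_stmt) : YUL_stmt := by
  intro p e m M hM G _ _ K s hs hp φ' hφ' φ hφ hm hst z x hU
  have hpr : p.Prime := hM.pr
  have : Fact p.Prime := ⟨hpr⟩
  have hKK : K ≤ K ⊔ Subgroup.zpowers s := le_sup_left
  have hK' : K ⊔ Subgroup.zpowers s ≤ nz K := sup_le Subgroup.le_normalizer (by rwa [Subgroup.zpowers_le])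
  have hk := hYIX p hpr G K (K ⊔ Subgroup.zpowers s) hKK hp
  have hCz : ∀ y : G, Cz K y ≤ Cz (K ⊔ Subgroup.zpowers s) y := fun y u hu => ⟨hKK hu.1, hu.2⟩
  -- the fields except `df`
  have hU' : Pool.Agent.NAB.Ucl p e (pp p (Cz K (z * x))) M K φ z x :=
    { pe := hU.pe
      re := hU.re
      co := hU.co
      zm := hU.zm
      xm := hU.xm
      od := hU.od
      ne := hU.ne
      cd := by
        have h1 : pp p (Cz K (z * x)) < p ^ pp p (Cz K (z * x)) := Nat.lt_pow_self hpr.one_lt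
        have h2 : p ^ pp p (Cz K (z * x)) ≤ p ^ (e + pp p (Cz K (z * x))) := Nat.pow_le_pow_right hpr.pos (Nat.le_add_left _ _)
        exact h1.le.trans h2 }
  have hV := hYUL p e _ M hM G K (K ⊔ Subgroup.zpowers s) hKK hK' hk φ' hφ' φ hφ hm hst z x hU'
  obtain ⟨D, y, hD, hKY⟩ := hU.df
  refine { pe := hV.pe, re := hV.re, co := hV.co, zm := hV.zm, xm := hV.xm, od := hV.od, ne := hV.ne, df := ⟨D, y, ?_, hKY⟩ }
  -- the class of `y`
  obtain ⟨n, hn⟩ := (IsPGroup.iff_card (p := p)).1 hD.pg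
  have hDK : D ≤ K := fun d hd => (hD.le hd).1
  have hU2 : Pool.Agent.NAB.Ucl p 0 n M K φ 1 y :=
    { pe := ⟨0, by simp⟩
      re := hD.reg
      co := by rw [one_mul, mul_one]
      zm := K.one_mem
      xm := hD.mem
      od := by rw [orderOf_one, pow_zero]
      ne := by
        rw [one_mul]
        exact hD.ne
      cd := by
        rw [one_mul, zero_add, ← hn]
        exact hD.card.symm.le }
  have hV2 := hYUL p 0 n M hM G K (K ⊔ Subgroup.zpowers s) hKK hK' hk φ' hφ' φ hφ hm hst 1 y hU2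
  have hle : D ≤ Cz (K ⊔ Subgroup.zpowers s) y := hD.le.trans (hCz y)
  have hc1 : Nat.card D ≤ pp p (Cz (K ⊔ Subgroup.zpowers s) y) := ((hSYL p G).1 D _ hD.pg hle).1
  have hc2 : pp p (Cz (K ⊔ Subgroup.zpowers s) y) ≤ Nat.card D := by
    have h1 := hV2.cd
    rwa [one_mul, zero_add, ← hn] at h1
  have hne : ¬ InM M (cc φ' (cls (K ⊔ Subgroup.zpowers s) y)) := by
    have h1 := hV2.ne
    rwa [one_mul] at h1
  refine { reg := hD.reg, mem := hKK hD.mem, le := hle, pg := hD.pg, card := le_antisymm hc1 hc2, ne := hne, min := ?_ }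
  intro y' hy' hne'
  obtain ⟨D', y₂, hD', -⟩ := hDEX p M hM G (K ⊔ Subgroup.zpowers s) φ' hφ'
  obtain ⟨η₀, hη₀, hSB⟩ := hDGL p M hM G K φ hφ D y hD
  obtain ⟨l, -, hl2⟩ := hYDF p M hM G K s hs hp φ hφ φ' hφ' hm D hDK hD.pg η₀ hη₀ hSB D' y₂ hD'
  exact (YUL_card D D' l hl2).trans (hD'.min y' hy' hne')

end Pool.Agent.ND.NY.E
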